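import Pool.Agent.TH908.IS.Stm

/-! # IS-C: independence, Fatou, Fubini (second prover, helper148) -/

set_option autoImplicit false

open MeasureTheory Metric Set Filter Topology
open scoped ENNReal

namespace Pool.Agent.TH908.IS.C2

/-- extension of a finite vector by zero -/
noncomputable def ex (n : ℕ) (v : Fin (n + 1) → ℂ) (x : ℕ) : ℂ :=
  if h : x < n + 1 then v ⟨x, h⟩ else 0

theorem ex_meas (n : ℕ) : Measurable (ex n) := by
  refine measurable_pi_lambda _ fun x => ?_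
  unfold ex
  by_cases h : x < n + 1
  · simp only [h, dif_pos]
    exact measurable_pi_apply _
  · simp only [h, dif_neg, not_false_eq_true]
    exact measurable_const

theorem rr_fin (a : ℕ → ℕ → ℂ) (n : ℕ) (z : ℂ) (v : ℕ → ℂ) (i : Fin (n + 1)) :
    rr a n z v i =
      (B (fun i j : Fin (n + 1) => a i j) z Finset.univ (fun i => v i))⁻¹ 0 i := by
  unfold rr
  rw [dif_pos i.2]

theorem inv_eq_rr (a : ℕ → ℕ → ℂ) (n : ℕ) (z : ℂ) (v : Fin (n + 1) → ℂ) (i : Fin (n + 1)) :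
    (B (fun i j : Fin (n + 1) => a i j) z Finset.univ v)⁻¹ 0 i = rr a n z (ex n v) i := by
  rw [rr_fin]
  have hv : (fun j : Fin (n + 1) => ex n v j) = v := by
    funext j
    unfold ex
    rw [dif_pos j.2]
  rw [hv]

theorem tsum_rr (a : ℕ → ℕ → ℂ) (n : ℕ) (z : ℂ) (v : ℕ → ℂ) {σ : ℝ} (hσ : 0 < σ) :
    ∑' x, ‖rr a n z v x‖ₑ ^ σ = ∑ i : Fin (n + 1), ‖rr a n z v i‖ₑ ^ σ := by
  rw [tsum_eq_sum (s := Finset.range (n + 1)), Finset.sum_range]
  intro x hx
  rw [Finset.mem_range] at hx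
  unfold rr
  rw [dif_neg hx]
  simp [hσ]

attribute [local irreducible] rr

theorem pi_law {Ω : Type} [MeasurableSpace Ω] (P : Measure Ω) [IsProbabilityMeasure P]
    (V : ℕ → Ω → ℂ) (hV : ∀ x, Measurable (V x)) (hind : ProbabilityTheory.iIndepFun V P) (n : ℕ) :
    P.map (fun ω (i : Fin (n + 1)) => V i ω) =
        Measure.pi (fun i : Fin (n + 1) => P.map (V i)) := by
  have h2 : ProbabilityTheory.iIndepFun (fun i : Fin (n + 1) => V i) P :=
    hind.precomp (g := fun i : Fin (n + 1) => (i : ℕ)) Fin.val_injective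
  exact (ProbabilityTheory.iIndepFun_iff_map_fun_eq_pi_map
    (fun i : Fin (n + 1) => (hV i).aemeasurable)).1 h2

theorem meas_F (hM : St_M) {Ω : Type} [MeasurableSpace Ω]
    (V : ℕ → Ω → ℂ) (hV : ∀ x, Measurable (V x)) (a : ℕ → ℕ → ℂ) (σ : ℝ) (n x : ℕ) :
    Measurable (fun p : ℂ × Ω => ‖rr a n p.1 (fun x => V x p.2) x‖ₑ ^ σ) := by
  have hVm : Measurable (fun (ω : Ω) (x : ℕ) => V x ω) := measurable_pi_lambda _ hV
  refine Measurable.pow_const ?_ _
  refine Measurable.enorm ?_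
  have h1 : Measurable (fun p : ℂ × Ω => ((p.1, fun x => V x p.2) : ℂ × (ℕ → ℂ))) :=
    measurable_fst.prodMk (hVm.comp measurable_snd)
  exact (hM a n x).comp h1

theorem meas_inv (hM : St_M) (a : ℕ → ℕ → ℂ) (σ : ℝ) (n : ℕ) (z : ℂ) (i : Fin (n + 1)) :
    Measurable (fun v : Fin (n + 1) → ℂ =>
      ‖(B (fun i j : Fin (n + 1) => a i j) z Finset.univ v)⁻¹ 0 i‖ₑ ^ σ) := by
  refine Measurable.pow_const ?_ _
  refine Measurable.enorm ?_
  have h : (fun v : Fin (n + 1) → ℂ => (B (fun i j : Fin (n + 1) => a i j) z Finset.univ v)⁻¹ 0 i)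
      = (fun p : ℂ × (ℕ → ℂ) => rr a n p.1 p.2 i) ∘ (fun v => (z, ex n v)) := by
    funext v
    exact inv_eq_rr a n z v i
  rw [h]
  exact (hM a n i).comp (measurable_const.prodMk (ex_meas n))

theorem fix (hB : St_B) (hM : St_M) {Ω : Type} [MeasurableSpace Ω] (P : Measure Ω)
    [IsProbabilityMeasure P] (V : ℕ → Ω → ℂ)
    (a : ℕ → ℕ → ℂ) (σ : ℝ) (N κ M : ℝ≥0∞) (hV : ∀ x, Measurable (V x))
    (hind : ProbabilityTheory.iIndepFun V P) (hσ : 0 < σ) (hσ1 : σ ≤ 1) (hN : N ≠ ⊤)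
    (hNb : ∀ x b, ∫⁻ ω, (‖V x ω - b‖ₑ⁻¹) ^ σ ∂P ≤ N)
    (hrow : ∀ u, ∑' y, (if y = u then 0 else ‖a u y‖ₑ ^ σ) ≤ κ) (hle : N * (1 + κ * M) ≤ M)
    (n : ℕ) (z : ℂ) : ∫⁻ ω, ∑' x, ‖rr a n z (fun x => V x ω) x‖ₑ ^ σ ∂P ≤ M := by
  have h1 : ∀ ω, ∑' x, ‖rr a n z (fun x => V x ω) x‖ₑ ^ σ =
      ∑ i : Fin (n + 1), ‖rr a n z (fun x => V x ω) i‖ₑ ^ σ := fun ω => tsum_rr a n z _ hσ
  rw [lintegral_congr h1, lintegral_finsetSum]
  swap
  · intro i _
    exact (meas_F hM V hV a σ n i).comp (measurable_const.prodMk measurable_id)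
  have hpr : ∀ i : Fin (n + 1), IsProbabilityMeasure (P.map (V i)) := fun i =>
    Measure.isProbabilityMeasure_map (hV i).aemeasurable
  have h3 : ∀ i : Fin (n + 1), ∫⁻ ω, ‖rr a n z (fun x => V x ω) i‖ₑ ^ σ ∂P =
      ∫⁻ v, ‖(B (fun i j : Fin (n + 1) => a i j) z Finset.univ v)⁻¹ 0 i‖ₑ ^ σ
        ∂(Measure.pi (fun i : Fin (n + 1) => P.map (V i))) := by
    intro i
    rw [← pi_law P V hV hind n,
      lintegral_map (meas_inv hM a σ n z i) (measurable_pi_lambda _ fun i => hV i)]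
    refine lintegral_congr fun ω => ?_
    rw [rr_fin]
  rw [Finset.sum_congr rfl fun i _ => h3 i]
  refine (hB (Fin (n + 1)) (fun i => P.map (V i)) (fun i j => a i j) z 0 σ N κ M hσ hσ1 hN
    ?_ ?_ hle).2
  · intro i b
    rw [lintegral_map (by fun_prop) (hV i)]
    exact hNb i b
  · intro u
    refine le_trans ?_ (hrow u)
    calc ∑ y ∈ Finset.univ.erase u, ‖a u y‖ₑ ^ σ
        = ∑ y ∈ Finset.univ.erase u, (if (y : ℕ) = u then 0 else ‖a u y‖ₑ ^ σ) := by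
          refine Finset.sum_congr rfl fun y hy => ?_
          rw [if_neg]
          intro h
          exact (Finset.ne_of_mem_erase hy) (Fin.ext h)
      _ ≤ ∑ y : Fin (n + 1), (if (y : ℕ) = u then 0 else ‖a u y‖ₑ ^ σ) :=
          Finset.sum_le_sum_of_subset (Finset.erase_subset _ _)
      _ = ∑ y ∈ Finset.range (n + 1), (if y = (u : ℕ) then 0 else ‖a u y‖ₑ ^ σ) := by
          rw [Finset.sum_range]
      _ ≤ _ := ENNReal.sum_le_tsum _

theorem fubini {Ω : Type} [MeasurableSpace Ω] (P : Measure Ω) [IsProbabilityMeasure P]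
    (F : ℕ → ℂ × Ω → ℝ≥0∞) (hF : ∀ n, Measurable (F n)) (M : ℝ≥0∞) (hMt : M ≠ ⊤)
    (hle : ∀ n z, ∫⁻ ω, F n (z, ω) ∂P ≤ M) :
    ∀ᵐ ω ∂P, ∀ R : ℕ, ∫⁻ z in ball (0 : ℂ) R, liminf (fun n => F n (z, ω)) atTop ≠ ⊤ := by
  rw [ae_all_iff]
  intro R
  have hmL : Measurable (fun p : ℂ × Ω => liminf (fun n : ℕ => F n p) atTop) :=
    Measurable.liminf hF
  have hmS : Measurable (fun p : Ω × ℂ => liminf (fun n : ℕ => F n (p.2, p.1)) atTop) :=
    hmL.comp measurable_swap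
  have hlt : ∫⁻ ω, (∫⁻ z in ball (0 : ℂ) R, liminf (fun n : ℕ => F n (z, ω)) atTop) ∂P ≠ ⊤ := by
    rw [lintegral_lintegral_swap]
    swap
    · exact hmS.aemeasurable
    refine ne_top_of_le_ne_top (b := M * volume (ball (0 : ℂ) R)) ?_ ?_
    · exact ENNReal.mul_ne_top hMt measure_ball_lt_top.ne
    calc ∫⁻ z in ball (0 : ℂ) R, (∫⁻ ω, liminf (fun n : ℕ => F n (z, ω)) atTop ∂P)
        ≤ ∫⁻ z in ball (0 : ℂ) R, M := by
          refine lintegral_mono fun z => ?_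
          refine (lintegral_liminf_le (fun n => (hF n).comp
            (measurable_const.prodMk measurable_id))).trans ?_
          refine Filter.liminf_le_of_le (by isBoundedDefault) fun b hb => ?_
          obtain ⟨n, hn⟩ := hb.exists
          exact hn.trans (hle n z)
      _ = M * volume (ball (0 : ℂ) R) := by
          rw [setLIntegral_const]
  have hmm : Measurable (fun ω => ∫⁻ z in ball (0 : ℂ) R,
      liminf (fun n : ℕ => F n (z, ω)) atTop) :=
    Measurable.lintegral_prod_right' (ν := volume.restrict (ball (0 : ℂ) R)) hmS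
  filter_upwards [ae_lt_top hmm hlt] with ω hω
  exact hω.ne

theorem main (hB : St_B) (hM : St_M) : St_C := by
  intro Ω _ P _ V a σ N κ M hV hind hσ hσ1 hN hMt hNb hrow hle
  refine fubini P (fun n p => ∑' x, ‖rr a n p.1 (fun x => V x p.2) x‖ₑ ^ σ) ?_ M hMt ?_
  · intro n
    exact Measurable.ennreal_tsum (fun x => meas_F hM V hV a σ n x)
  · intro n z
    exact fix hB hM P V a σ N κ M hV hind hσ hσ1 hN hNb hrow hle n z

end Pool.Agent.TH908.IS.C2
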